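import Mathlib
import Pool.Agent.H348R6.GV2

/-!
Extension of `κ`-complete filters with `κ` disjoint positive sets to `κ`-complete filters which
fail the Galvin property for every number `λ` of sets for which there are `λ` functions `κ → κ`
that are pairwise eventually different. (The construction is the one of `Pool.Agent.H348R6.GV2`
with the club filter replaced by an arbitrary filter.)
-/

set_option autoImplicit false

namespace Pool.Agent.Y671.GV

open Cardinal Set Pool.Agent.H348R6.GV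

universe u

section general

variable {κ : Cardinal.{u}}

/-- The filter of the construction. -/
def gfil (hκ : κ.IsRegular) (G : Filter κ.ord.ToType) {Λ : Type u}
    (h : Λ → κ.ord.ToType → κ.ord.ToType)
    (t : κ.ord.ToType × κ.ord.ToType → Set κ.ord.ToType) : Filter κ.ord.ToType where
  sets := {X | ∃ J : Set Λ, #J < κ ∧
    ∀ p : κ.ord.ToType × κ.ord.ToType, (∀ i ∈ J, p.2 ≠ h i p.1) → X ∪ (t p)ᶜ ∈ G}
  univ_sets := ⟨∅, by simpa using hκ.pos, fun p _ => by simp⟩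
  sets_of_superset := by
    rintro X Y ⟨J, hJ, hX⟩ hXY
    exact ⟨J, hJ, fun p hp => Filter.mem_of_superset (hX p hp) (union_subset_union_left _ hXY)⟩
  inter_sets := by
    rintro X Y ⟨J, hJ, hX⟩ ⟨K, hK, hY⟩
    refine ⟨J ∪ K, (mk_union_le J K).trans_lt (add_lt_of_lt hκ.aleph0_le hJ hK), fun p hp => ?_⟩
    have h1 := hX p (fun i hi => hp i (Or.inl hi))
    have h2 := hY p (fun i hi => hp i (Or.inr hi))
    refine Filter.mem_of_superset (Filter.inter_mem h1 h2) ?_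
    rintro a ⟨ha1, ha2⟩
    rcases ha1 with h | h
    · rcases ha2 with h' | h'
      · exact Or.inl ⟨h, h'⟩
      · exact Or.inr h'
    · exact Or.inr h

theorem mem_gfil (hκ : κ.IsRegular) (G : Filter κ.ord.ToType) {Λ : Type u}
    (h : Λ → κ.ord.ToType → κ.ord.ToType)
    (t : κ.ord.ToType × κ.ord.ToType → Set κ.ord.ToType)
    (X : Set κ.ord.ToType) : X ∈ gfil hκ G h t ↔ ∃ J : Set Λ, #J < κ ∧
    ∀ p : κ.ord.ToType × κ.ord.ToType, (∀ i ∈ J, p.2 ≠ h i p.1) → X ∪ (t p)ᶜ ∈ G := Iff.rfl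

/-- Main construction. -/
theorem gmain (hκ : κ.IsRegular) (G : Filter κ.ord.ToType)
    (hG : ∀ S : Set (Set κ.ord.ToType), #S < κ → (∀ s ∈ S, s ∈ G) → ⋂₀ S ∈ G)
    (P : κ.ord.ToType → Set κ.ord.ToType) (hP : ∀ a, (P a)ᶜ ∉ G)
    (hPd : ∀ a b, a ≠ b → Disjoint (P a) (P b)) {Λ : Type u}
    (h : Λ → κ.ord.ToType → κ.ord.ToType)
    (hh : ∀ i j, i ≠ j → ∃ b, ∀ a, b ≤ a → h i a ≠ h j a) :
    ∃ F : Filter κ.ord.ToType, F ≤ G ∧ F.NeBot ∧
      (∀ S : Set (Set κ.ord.ToType), #S < κ → (∀ s ∈ S, s ∈ F) → ⋂₀ S ∈ F) ∧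
      ∃ A : Λ → Set κ.ord.ToType, (∀ i, A i ∈ F) ∧
        ∀ I : Set Λ, κ ≤ #I → ⋂ i ∈ I, A i ∉ F := by
  classical
  have hne := nonempty_toType hκ
  have hprod : #(κ.ord.ToType × κ.ord.ToType) ≤ #(κ.ord.ToType) := by
    simp only [mk_prod, lift_id, Cardinal.mk_toType, card_ord]
    rw [mul_eq_self hκ.aleph0_le]
  obtain ⟨e⟩ := hprod
  set t : κ.ord.ToType × κ.ord.ToType → Set κ.ord.ToType := fun p => P (e p) with htdef
  have ht : ∀ p, (t p)ᶜ ∉ G := fun p => hP _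
  have htd : ∀ p q, p ≠ q → Disjoint (t p) (t q) := fun p q hpq => hPd _ _ fun h => hpq (e.injective h)
  refine ⟨gfil hκ G h t, ?_, ?_, ?_, ?_⟩
  · -- extends `G`
    intro C hC
    refine (mem_gfil _ _ _ _ _).2 ⟨∅, by simpa using hκ.pos, fun p _ => ?_⟩
    exact Filter.mem_of_superset hC subset_union_left
  · -- proper
    rw [Filter.neBot_iff]
    intro hbot
    have h0 : (∅ : Set κ.ord.ToType) ∈ gfil hκ G h t := by rw [hbot]; trivial
    obtain ⟨J, hJ, hJ2⟩ := (mem_gfil _ _ _ _ _).1 h0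
    obtain ⟨x⟩ := hne
    have hy : ∃ y : κ.ord.ToType, ∀ i ∈ J, y ≠ h i x := by
      obtain ⟨y, hy⟩ := bdd_of_lt hκ (fun i : J => h i.1 x) hJ
      exact ⟨y, fun i hi => (hy ⟨i, hi⟩).ne'⟩
    obtain ⟨y, hy⟩ := hy
    have := hJ2 (x, y) hy
    rw [empty_union] at this
    exact ht _ this
  · -- completeness
    intro S hS hSF
    choose! J hJ hJ2 using fun s (hs : s ∈ S) => (mem_gfil _ _ _ _ _).1 (hSF s hs)
    refine (mem_gfil _ _ _ _ _).2 ⟨⋃ s : S, J s.1, ?_, fun p hp => ?_⟩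
    · exact (card_iUnion_lt_iff_forall_of_isRegular hκ hS).2 (fun s => hJ s.1 s.2)
    · have h1 : ∀ s : S, s.1 ∪ (t p)ᶜ ∈ G := fun s =>
        hJ2 s.1 s.2 p (fun i hi => hp i (mem_iUnion.2 ⟨s, hi⟩))
      have h2 : ⋂₀ (range fun s : S => s.1 ∪ (t p)ᶜ) ∈ G := by
        refine hG _ (mk_range_le.trans_lt hS) ?_
        rintro _ ⟨s, rfl⟩
        exact h1 s
      refine Filter.mem_of_superset h2 ?_
      intro a ha
      by_cases hap : a ∈ t p
      · left
        intro s hs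
        have h3 := ha (s ∪ (t p)ᶜ) ⟨⟨s, hs⟩, rfl⟩
        rcases h3 with h3 | h3
        · exact h3
        · exact absurd hap h3
      · exact Or.inr hap
  · -- not Galvin
    refine ⟨fun i => (⋃ x, t (x, h i x))ᶜ, fun i => ?_, fun I hI hF => ?_⟩
    · refine (mem_gfil _ _ _ _ _).2 ⟨{i}, ?_, fun p hp => ?_⟩
      · simpa using one_lt_aleph0.trans_le hκ.aleph0_le
      · have hp' := hp i rfl
        have huniv : (⋃ x, t (x, h i x))ᶜ ∪ (t p)ᶜ = Set.univ := by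
          rw [eq_univ_iff_forall]
          intro a
          by_cases ha : a ∈ t p
          · left
            intro ha2
            obtain ⟨x, hx⟩ := mem_iUnion.1 ha2
            have hne : p ≠ (x, h i x) := by
              rintro rfl
              exact hp' rfl
            exact absurd hx (Set.disjoint_left.1 (htd _ _ hne) ha)
          · exact Or.inr ha
        rw [huniv]
        exact Filter.univ_mem
    · obtain ⟨J, hJ, hJ2⟩ := (mem_gfil _ _ _ _ _).1 hF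
      have hex : ∃ i ∈ I, i ∉ J := by
        by_contra hcon
        push Not at hcon
        have := mk_le_mk_of_subset (s := I) (t := J) hcon
        exact absurd ((hI.trans this).trans_lt hJ) (lt_irrefl _)
      obtain ⟨i, hiI, hiJ⟩ := hex
      have hb : ∀ j : J, ∃ b, ∀ a, b ≤ a → h i a ≠ h j.1 a := by
        rintro ⟨j, hj⟩
        have hij : i ≠ j := fun hij => hiJ (hij ▸ hj)
        exact hh i j hij
      choose b hb using hb
      obtain ⟨x, hx⟩ := bdd_of_lt hκ b hJ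
      have h1 := hJ2 (x, h i x) (fun j hj => hb ⟨j, hj⟩ x (hx ⟨j, hj⟩).le)
      refine ht (x, h i x) (Filter.mem_of_superset h1 ?_)
      rintro a (ha | ha)
      · intro ha2
        have ha3 := mem_iInter₂.1 ha i hiI
        exact ha3 (mem_iUnion.2 ⟨x, ha2⟩)
      · exact ha

/-- `κ⁺` functions, pairwise eventually different. -/
theorem evdiff_succ (hκ : κ.IsRegular) :
    ∃ h : (Order.succ κ).ord.ToType → κ.ord.ToType → κ.ord.ToType,
      ∀ i j, i ≠ j → ∃ b, ∀ a, b ≤ a → h i a ≠ h j a := by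
  obtain ⟨h, hh⟩ := exists_scale hκ
  refine ⟨h, fun i j hij => ?_⟩
  rcases lt_or_gt_of_ne hij with hlt | hlt
  · obtain ⟨b, hb⟩ := hh j i hlt
    exact ⟨b, fun a ha => (hb a ha).ne⟩
  · obtain ⟨b, hb⟩ := hh i j hlt
    exact ⟨b, fun a ha => (hb a ha).ne'⟩

/-- `2^κ` functions, pairwise eventually different, if `κ^{<κ} = κ`. -/
theorem evdiff_two (hκ : κ.IsRegular) (hp : κ ^< κ = κ) :
    ∃ h : Set κ.ord.ToType → κ.ord.ToType → κ.ord.ToType,
      ∀ i j, i ≠ j → ∃ b, ∀ a, b ≤ a → h i a ≠ h j a := by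
  classical
  have h1 : ∀ d : κ.ord.ToType, #(Set (Iic d)) ≤ κ := by
    intro d
    rw [mk_set]
    have h2 : (2 : Cardinal.{u}) ^ #(Iic d) ≤ κ ^ #(Iic d) :=
      Cardinal.power_le_power_right ((Cardinal.natCast_lt_aleph0 (n := 2)).le.trans hκ.aleph0_le)
    refine h2.trans ?_
    conv_rhs => rw [← hp]
    exact le_powerlt κ (mk_Iic_lt hκ d)
  have h3 : #(Σ d : κ.ord.ToType, Set (Iic d)) ≤ #(κ.ord.ToType) := by
    rw [mk_sigma]
    refine (sum_le_sum _ (fun _ => κ) h1).trans ?_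
    rw [sum_const, lift_id, lift_id, Cardinal.mk_toType, card_ord, mul_eq_self hκ.aleph0_le]
  obtain ⟨e⟩ := h3
  refine ⟨fun X d => e ⟨d, {y | y.1 ∈ X}⟩, fun X Y hXY => ?_⟩
  obtain ⟨b, hb⟩ : ∃ b, ¬ (b ∈ X ↔ b ∈ Y) := by
    by_contra hcon
    push Not at hcon
    exact hXY (Set.ext hcon)
  refine ⟨b, fun a ha heq => hb ?_⟩
  have h4 := e.injective heq
  have h5 : ({y : Iic a | y.1 ∈ X}) = {y : Iic a | y.1 ∈ Y} := by
    have := Sigma.mk.inj_iff.1 h4
    exact eq_of_heq this.2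
  have h6 : (⟨b, ha⟩ : Iic a) ∈ {y : Iic a | y.1 ∈ X} ↔ (⟨b, ha⟩ : Iic a) ∈ {y : Iic a | y.1 ∈ Y} := by
    rw [h5]
  exact h6

end general

section stat

variable {L : Type u} [LinearOrder L]

/-- Closure points of a function form a club. -/
theorem club_closure [WellFoundedLT L] [Nonempty L]
    (hc : ∀ g : ℕ → L, ∃ b, ∀ n, g n < b)
    (hreg : ∀ (a : L) (g : Iic a × Iic a → L), ∃ c, ∀ i, g i < c) (f : L → L) :
    IsClub {a : L | (∃ b, b < a) ∧ ∀ b < a, f b < a} := by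
  refine ⟨?_, ?_⟩
  · intro d hd hne _ a ha
    refine ⟨?_, fun b hb => ?_⟩
    · obtain ⟨x, hx⟩ := hne
      obtain ⟨b, hb⟩ := (hd hx).1
      exact ⟨b, hb.trans_le (ha.1 hx)⟩
    · have h1 : ∃ x ∈ d, b < x := by
        by_contra hcon
        push Not at hcon
        exact absurd (ha.2 hcon) (not_le.2 hb)
      obtain ⟨x, hx, hbx⟩ := h1
      exact ((hd hx).2 b hbx).trans_le (ha.1 hx)
  · intro η
    have step : ∀ a : L, ∃ c, a < c ∧ ∀ b ≤ a, f b < c := by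
      intro a
      obtain ⟨c, hc1⟩ := hreg a (fun p => max (f p.1.1) a)
      refine ⟨c, ?_, fun b hb => ?_⟩
      · exact lt_of_le_of_lt (le_max_right _ _) (hc1 (⟨a, le_refl a⟩, ⟨a, le_refl a⟩))
      · exact lt_of_le_of_lt (le_max_left _ _) (hc1 (⟨b, hb⟩, ⟨a, le_refl a⟩))
    choose s hs1 hs2 using step
    let a : ℕ → L := fun n => Nat.rec η (fun _ x => s x) n
    have ha1 : ∀ n, a n < a (n + 1) := fun n => hs1 (a n)
    have ha2 : ∀ n, ∀ b ≤ a n, f b < a (n + 1) := fun n => hs2 (a n)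
    have hne : {b : L | ∀ n, a n < b}.Nonempty := hc a
    let α := WellFounded.min (wellFounded_lt (α := L)) {b : L | ∀ n, a n < b} hne
    have hα : ∀ n, a n < α := WellFounded.min_mem (wellFounded_lt (α := L)) _ hne
    have hα2 : ∀ b < α, ∃ n, b ≤ a n := by
      intro b hb
      by_contra hcon
      push Not at hcon
      exact WellFounded.not_lt_min (wellFounded_lt (α := L)) {b : L | ∀ n, a n < b} hcon hb
    refine ⟨α, ⟨⟨a 0, hα 0⟩, fun b hb => ?_⟩, (hα 0).le⟩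
    obtain ⟨n, hn⟩ := hα2 b hb
    exact (ha2 n b hn).trans (hα (n + 1))

theorem not_thin_of_stationary [WellFoundedLT L] [Nonempty L]
    (hc : ∀ g : ℕ → L, ∃ b, ∀ n, g n < b)
    (hreg : ∀ (a : L) (g : Iic a × Iic a → L), ∃ c, ∀ i, g i < c) {T : Set L}
    (hT : IsStationary T) : ¬ Thin T := by
  rintro ⟨f, hf⟩
  obtain ⟨a, haT, ⟨b, hb⟩, ha⟩ := hT (club_closure hc hreg f)
  rcases hf a haT with h | ⟨c, hc, hac⟩
  · exact h b hb
  · exact absurd (ha c hc) (not_lt.2 hac)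

/-- There is a regressive function on a nonthin set of limits of sequences with cofinally many
nonthin fibres. -/
theorem exists_splitS [WellFoundedLT L] [Nonempty L]
    (hcU : ∀ {ι : Type u} [Countable ι] (g : ι → L), ∃ b, ∀ n, g n < b)
    (hc : ∀ g : ℕ → L, ∃ b, ∀ n, g n < b)
    (hreg : ∀ (a : L) (g : Iic a × Iic a → L), ∃ c, ∀ i, g i < c)
    (T : Set L) (hTE : T ⊆ E L) (hT : ¬ Thin T) :
    ∃ (g : L → L), ∀ η : L, ∃ γ, η ≤ γ ∧ ¬ Thin {a ∈ T | g a = γ} := by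
  classical
  have hE : ∀ α ∈ T, ∃ a : ℕ → L, LimSeq α a := fun α h => hTE h
  choose! a ha using hE
  have key : ∃ n, ∀ η, ¬ Thin {α ∈ T | η ≤ a α n} := by
    by_contra hcon
    push Not at hcon
    choose η hη using hcon
    obtain ⟨c, hcη⟩ := hc η
    have h1 := thin_iUnion (ι := ULift.{u} ℕ) (fun g => hcU g)
      (A := fun n => {α ∈ T | η n.down ≤ a α n.down}) (fun n => hη n.down)
    have h2 : Thin ((⋃ n : ULift.{u} ℕ, {α ∈ T | η n.down ≤ a α n.down}) ∪ Iic c) := by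
      have := thin_iUnion (ι := ULift.{u} Bool) (fun g => hcU g)
        (A := fun b => if b.down then (⋃ n : ULift.{u} ℕ, {α ∈ T | η n.down ≤ a α n.down})
          else Iic c)
        (fun b => by by_cases hb : b.down <;> simp [hb, h1, thin_Iic])
      refine this.mono ?_
      rintro x (hx | hx)
      · exact mem_iUnion.2 ⟨⟨true⟩, by simpa using hx⟩
      · exact mem_iUnion.2 ⟨⟨false⟩, by simpa using hx⟩
    refine hT (h2.mono ?_)
    intro α hα
    by_cases hαc : α ≤ c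
    · exact Or.inr hαc
    · left
      push Not at hαc
      obtain ⟨n, hn⟩ := (ha α hα).2 c hαc
      exact mem_iUnion.2 ⟨⟨n⟩, hα, ((hcη n).trans hn).le⟩
  obtain ⟨n, hn⟩ := key
  refine ⟨fun α => a α n, fun η => ?_⟩
  by_contra hcon
  push Not at hcon
  refine hn η (fodor hreg (fun α => a α n) (fun α hα => (ha α hα.1).1 n) ?_)
  intro γ
  by_cases hγ : η ≤ γ
  · exact (hcon γ hγ).mono (fun α hα => ⟨hα.1.1, hα.2⟩)
  · refine ⟨id, ?_⟩
    rintro α ⟨⟨_, h1⟩, h2⟩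
    exact absurd (h2 ▸ h1) hγ

end stat

section club

variable {κ : Cardinal.{u}}

theorem exists_piecesS (hκ : κ.IsRegular) (hω : ℵ₀ < κ) (T : Set κ.ord.ToType)
    (hTE : T ⊆ E κ.ord.ToType) (hT : ¬ Thin T) :
    ∃ P : κ.ord.ToType → Set κ.ord.ToType, (∀ a, P a ⊆ T) ∧
      (∀ a, ¬ Thin (P a)) ∧ ∀ a b, a ≠ b → Disjoint (P a) (P b) := by
  classical
  have := nonempty_toType hκ
  obtain ⟨g, hg⟩ := exists_splitS (L := κ.ord.ToType)
    (fun g => hcU_toType hκ hω g) (hc_toType hκ hω) (hreg_toType hκ) T hTE hT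
  let Γ : Set κ.ord.ToType := {γ | ¬ Thin {a ∈ T | g a = γ}}
  have hΓ : IsCofinal Γ := fun η => by
    obtain ⟨γ, h1, h2⟩ := hg η
    exact ⟨γ, h2, h1⟩
  have hΓc : κ ≤ #Γ := by
    have h1 := Order.cof_le hΓ
    rwa [cof_toType_eq hκ] at h1
  have hle : #(κ.ord.ToType) ≤ #Γ := by rwa [Cardinal.mk_toType, card_ord]
  obtain ⟨e⟩ := hle
  refine ⟨fun p => {a ∈ T | g a = e p}, fun p a ha => ha.1, fun p => (e p).2, fun p q hpq => ?_⟩
  rw [Set.disjoint_left]
  rintro a ⟨_, h1⟩ ⟨_, h2⟩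
  exact hpq (e.injective (Subtype.ext (h1.symm.trans h2)))

/-- The filter generated by the clubs and `S`. -/
def clubOn (hκ : κ.IsRegular) (hω : ℵ₀ < κ) (S : Set κ.ord.ToType) : Filter κ.ord.ToType where
  sets := {X | ∃ C, IsClub C ∧ C ∩ S ⊆ X}
  univ_sets := ⟨univ, IsClub.univ, subset_univ _⟩
  sets_of_superset := by
    rintro X Y ⟨C, hC, hX⟩ hXY
    exact ⟨C, hC, hX.trans hXY⟩
  inter_sets := by
    rintro X Y ⟨C, hC, hX⟩ ⟨D, hD, hY⟩
    refine ⟨C ∩ D, hC.inter (by rw [cof_toType_eq hκ]; exact hω.ne') hD, ?_⟩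
    rintro a ⟨⟨h1, h2⟩, h3⟩
    exact ⟨hX ⟨h1, h3⟩, hY ⟨h2, h3⟩⟩

theorem clubOn_complete (hκ : κ.IsRegular) (hω : ℵ₀ < κ) (S : Set κ.ord.ToType) :
    ∀ W : Set (Set κ.ord.ToType), #W < κ → (∀ s ∈ W, s ∈ clubOn hκ hω S) →
      ⋂₀ W ∈ clubOn hκ hω S := by
  intro W hW hWs
  have h1 : ∀ s : W, ∃ C, IsClub C ∧ C ∩ S ⊆ s.1 := fun s => hWs s.1 s.2
  choose C hC hCS using h1
  refine ⟨⋂₀ (range C), ?_, ?_⟩
  · refine IsClub.sInter (by rw [cof_toType_eq hκ]; exact hω.ne') ?_ ?_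
    · rw [cof_toType_eq hκ]
      exact mk_range_le.trans_lt hW
    · rintro _ ⟨s, rfl⟩
      exact hC s
  · rintro a ⟨ha, haS⟩ s hs
    exact hCS ⟨s, hs⟩ ⟨ha _ ⟨⟨s, hs⟩, rfl⟩, haS⟩

theorem clubOn_positive (hκ : κ.IsRegular) (hω : ℵ₀ < κ) (S : Set κ.ord.ToType)
    (hS : IsStationary (S ∩ E κ.ord.ToType)) :
    ∃ P : κ.ord.ToType → Set κ.ord.ToType, (∀ a, (P a)ᶜ ∉ clubOn hκ hω S) ∧
      ∀ a b, a ≠ b → Disjoint (P a) (P b) := by
  have hne := nonempty_toType hκ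
  have hno : ∀ a : κ.ord.ToType, ∃ b, a < b := fun a => by
    obtain ⟨b, hb⟩ := hcU_toType hκ hω (fun _ : PUnit.{u+1} => a)
    exact ⟨b, hb ⟨⟩⟩
  obtain ⟨P, h1, h2, h3⟩ := exists_piecesS hκ hω (S ∩ E κ.ord.ToType) inter_subset_right
    (not_thin_of_stationary (hc_toType hκ hω) (hreg_toType hκ) hS)
  refine ⟨P, fun a ha => ?_, h3⟩
  obtain ⟨C, hC, hCS⟩ := ha
  refine h2 a ((thin_compl_of_isClub hno hC).mono ?_)
  intro x hx hxC
  exact hCS ⟨hxC, (h1 a hx).1⟩ hx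

theorem stationary_E (hκ : κ.IsRegular) (hω : ℵ₀ < κ) : IsStationary (E κ.ord.ToType) := by
  have hne := nonempty_toType hκ
  have hno : ∀ a : κ.ord.ToType, ∃ b, a < b := fun a => by
    obtain ⟨b, hb⟩ := hcU_toType hκ hω (fun _ : PUnit.{u+1} => a)
    exact ⟨b, hb ⟨⟩⟩
  intro C hC
  by_contra hcon
  rw [not_nonempty_iff_eq_empty] at hcon
  refine not_thin_E (hc_toType hκ hω) (hreg_toType hκ) ((thin_compl_of_isClub hno hC).mono ?_)
  intro x hx hxC
  have : x ∈ E κ.ord.ToType ∩ C := ⟨hx, hxC⟩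
  rw [hcon] at this
  exact this

end club

end Pool.Agent.Y671.GV
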